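import Pool.Agent.Helper31.TutteDefs
import Pool.Agent.Helper31.TutteQ1

set_option autoImplicit false

namespace Pool.Agent.Helper31.Withdrawn.OuterplanarNotTutte

open Pool.Agent.Helper31.Tutte

/-- Outerplanarity is not determined by the Tutte polynomial: there are two connected
Tutte-equivalent multigraphs (on 6 vertices and 10 edges) of which the first is outerplanar and
the second is not; the second even has a `K_{2,3}`-minor. -/
theorem result : ∃ G H : Multigraph (Fin 6) (Fin 10),
    G.tutte = H.tutte ∧ G.Connected ∧ H.Connected ∧ G.IsOuterplanar ∧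
      ¬ H.IsOuterplanar ∧ H.HasK23Minor :=
  ⟨gG, gH, tutte_eq, connG, connH, outerG, not_outerH, minorH⟩

end Pool.Agent.Helper31.Withdrawn.OuterplanarNotTutte
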